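import Mathlib

namespace Pool.Agent.Results.MP_066924_al.Lie

open NormedSpace

section defs
variable {K V : Type} [Field K] [AddCommGroup V] [Module K V]

def IsDer (m : V →ₗ[K] V →ₗ[K] V) (D : Module.End K V) : Prop :=
  ∀ x y, D (m x y) = m (D x) y + m x (D y)

def IsLocDer (m : V →ₗ[K] V →ₗ[K] V) (T : Module.End K V) : Prop :=
  ∀ x, ∃ D, IsDer m D ∧ T x = D x

def orb (m : V →ₗ[K] V →ₗ[K] V) (x : V) : Submodule K V where
  carrier := {v | ∃ D, IsDer m D ∧ v = D x}
  zero_mem' := ⟨0, by simp [IsDer], rfl⟩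
  add_mem' := by
    rintro _ _ ⟨D, hD, rfl⟩ ⟨E, hE, rfl⟩
    refine ⟨D + E, fun x y => ?_, rfl⟩
    simp only [LinearMap.add_apply, hD x y, hE x y, map_add]
    abel
  smul_mem' := by
    rintro c _ ⟨D, hD, rfl⟩
    refine ⟨c • D, fun x y => ?_, rfl⟩
    simp [hD x y]

lemma der_br {m : V →ₗ[K] V →ₗ[K] V} {D E : Module.End K V} (hD : IsDer m D) (hE : IsDer m E) :
    IsDer m (D * E - E * D) := by
  intro x y
  simp only [LinearMap.sub_apply, Module.End.mul_apply, hD _ _, hE _ _, map_add, map_sub]
  abel

end defs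

lemma key {K V : Type} [RCLike K] [NormedAddCommGroup V] [NormedSpace K V] [FiniteDimensional K V]
    (m : V →ₗ[K] V →ₗ[K] V) (T D : Module.End K V) (hT : IsLocDer m T) (hD : IsDer m D) (x : V) :
    T (D x) - D (T x) ∈ orb m x := by
  have : CompleteSpace V := FiniteDimensional.complete K V
  let M : V →L[K] V →L[K] V := m.toContinuousBilinearMap
  have hM : ∀ u v, M u v = m u v := fun u v => rfl
  let D' : V →L[K] V := LinearMap.toContinuousLinearMap D
  let T' : V →L[K] V := LinearMap.toContinuousLinearMap T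
  let g : K → V →L[K] V := fun t => exp (t • D')
  let h : K → V →L[K] V := fun t => exp (t • (-D'))
  have g0 : g 0 = 1 := by simp [g]
  have h0 : h 0 = 1 := by simp [h]
  have dg : ∀ t, HasDerivAt g (D' * g t) t := fun t => hasDerivAt_exp_smul_const' D' t
  have dg' : ∀ t, HasDerivAt g (g t * D') t := fun t => hasDerivAt_exp_smul_const D' t
  have dh : ∀ t, HasDerivAt h (h t * (-D')) t := fun t => hasDerivAt_exp_smul_const (-D') t
  have dh' : ∀ t, HasDerivAt h ((-D') * h t) t := fun t => hasDerivAt_exp_smul_const' (-D') t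
  have const : ∀ f : K → V, (∀ t, HasDerivAt f 0 t) → ∀ t, f t = f 0 := fun f hf t =>
    is_const_of_deriv_eq_zero (fun t => (hf t).differentiableAt) (fun t => (hf t).deriv) t 0
  have dgu : ∀ u t, HasDerivAt (fun t => g t u) (D (g t u)) t := fun u t => by
    simpa [D'] using (dg t).clm_apply (hasDerivAt_const t u)
  have gh : ∀ t u, g t (h t u) = u := by
    intro t u
    have := const (fun t => g t (h t u)) (fun t => by
      have := (dg' t).clm_apply ((dh' t).clm_apply (hasDerivAt_const t u))
      simpa using this) t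
    simpa [g0, h0] using this
  have hg : ∀ t u, h t (g t u) = u := by
    intro t u
    have := const (fun t => h t (g t u)) (fun t => by
      have := (dh t).clm_apply (dgu u t)
      simpa [D'] using this) t
    simpa [g0, h0] using this
  have aut : ∀ t u v, h t (m (g t u) (g t v)) = m u v := by
    intro t u v
    have := const (fun t => h t (M (g t u) (g t v))) (fun t => by
      have h1 := (M.hasFDerivAt.comp_hasDerivAt t (dgu u t)).clm_apply (dgu v t)
      refine ((dh t).clm_apply h1).congr_deriv ?_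
      change h t (-(D (m (g t u) (g t v)))) + h t (m (D (g t u)) (g t v) + m (g t u) (D (g t v))) = 0
      rw [hD, map_neg, neg_add_cancel]) t
    simpa [g0, h0, hM] using this
  have aut' : ∀ t u v, g t (m u v) = m (g t u) (g t v) := fun t u v => by
    rw [← aut t u v, gh]
  have auth : ∀ t u v, h t (m u v) = m (h t u) (h t v) := fun t u v => by
    rw [← aut t (h t u) (h t v), gh, gh]
  have mem : ∀ t, h t (T' (g t x)) ∈ orb m x := by
    intro t
    obtain ⟨E, hE, hEx⟩ := hT (g t x)
    refine ⟨(h t).toLinearMap ∘ₗ E ∘ₗ (g t).toLinearMap, fun u v => ?_, ?_⟩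
    · simp only [LinearMap.comp_apply, ContinuousLinearMap.coe_coe, aut', hE _ _, map_add, auth, hg]
    · simp [T', hEx]
  have d1 : HasDerivAt (fun t => h t (T' (g t x))) (T (D x) - D (T x)) 0 := by
    refine ((dh 0).clm_apply (T'.hasFDerivAt.comp_hasDerivAt 0 (dgu x 0))).congr_deriv ?_
    change h 0 (-(D (T (g 0 x)))) + h 0 (T (D (g 0 x))) = _
    rw [g0, h0]
    exact neg_add_eq_sub (D (T x)) (T (D x))
  refine (orb m x).closed_of_finiteDimensional.mem_of_tendsto (hasDerivAt_iff_tendsto_slope.1 d1)
    (Filter.Eventually.of_forall fun t => ?_)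
  rw [slope_def_module]
  exact Submodule.smul_mem _ _ (sub_mem (mem t) (mem 0))

theorem result (K V : Type) [RCLike K] [AddCommGroup V] [Module K V] [FiniteDimensional K V]
    (m : V →ₗ[K] V →ₗ[K] V) (S T : Module.End K V) (hS : IsLocDer m S) (hT : IsLocDer m T) :
    IsLocDer m (S * T - T * S) := by
  let e := (Module.finBasis K V).equivFun
  let : NormedAddCommGroup V := NormedAddCommGroup.induced V _ e.toLinearMap e.injective
  let : NormedSpace K V := NormedSpace.induced K V _ e.toLinearMap
  intro x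
  obtain ⟨D, hD, hDx⟩ := hS x
  obtain ⟨E, hE, hEx⟩ := hT x
  have h1 := key m S E hS hE x
  have h2 := key m T D hT hD x
  have h3 : (E * D - D * E) x ∈ orb m x := ⟨_, der_br hE hD, rfl⟩
  have h4 := sub_mem (add_mem h1 h3) h2
  have : (S * T - T * S) x = S (E x) - E (S x) + (E * D - D * E) x - (T (D x) - D (T x)) := by
    simp only [LinearMap.sub_apply, Module.End.mul_apply, hDx, hEx]
    abel
  rw [← this] at h4
  exact h4

end Pool.Agent.Results.MP_066924_al.Lie
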